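import Pool.Agent.helper62.DP8.Spec

set_option autoImplicit false

namespace Pool.Agent.helper62.DP8

theorem DEL (hCOL : COL_stmt) (hDGE : DGE_stmt) : DEL_stmt := by
  intro V _ H T s v hvT h2 hP W R L hW hC hL
  have hv := hL v hvT
  have hne : (L v).Nonempty := by
    rw [← Finset.card_pos]; omega
  obtain ⟨x, hx⟩ := hne
  obtain ⟨L', hC', hmem, hgood, hnon, hcard⟩ := hCOL V H W R L hC v x hx
  apply hgood T hvT
  apply hP W R L' hW hC'
  intro u hu
  have huv : u ≠ v := Finset.ne_of_mem_erase hu
  have huT : u ∈ T := Finset.mem_of_mem_erase hu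
  have hd := hDGE V H T u v
  have hLu := hL u huT
  by_cases hadj : H.Adj u v
  · have h1 := hd.1 hadj hvT
    have h3 := hcard u huv
    omega
  · have h1 := hd.2 hadj
    have h3 := hnon u huv (fun h => hadj h.symm)
    rw [h3, h1]
    exact hLu

end Pool.Agent.helper62.DP8
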